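import Mathlib
import Pool.Agent.H.MP_b3d40b_lc.A

namespace Pool.Agent.Results.MP_b3d40b_lc.Two
open Set MeasureTheory Pool.Agent.H.MP_b3d40b_lc

/-- `f` is constant on each of finitely many intervals partitioning `[0,1]` -/
def PC (f : ℝ → ℝ) : Prop :=
  ∃ P : Finset (Set ℝ), (∀ I ∈ P, I.OrdConnected) ∧ (P : Set (Set ℝ)).PairwiseDisjoint id ∧
    ⋃ I ∈ P, I = Icc 0 1 ∧ ∀ I ∈ P, ∃ c, ∀ x ∈ I, f x = c

/-- admissible value densities -/
def Valid (f : ℝ → ℝ) : Prop :=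
  PC f ∧ (∀ x ∈ Icc (0:ℝ) 1, 0 ≤ f x) ∧ 0 < ∫ x in Icc (0:ℝ) 1, f x

/-- finite unions of intervals -/
def FU (S : Set ℝ) : Prop := ∃ F : Finset (Set ℝ), (∀ I ∈ F, I.OrdConnected) ∧ S = ⋃ I ∈ F, I

/-- value of a piece -/
noncomputable def val (f : ℝ → ℝ) (X : Set ℝ) : ℝ := ∫ x in X, f x

/-- on admissible profiles, `M` allocates the whole cake -/
def IsMech {n : ℕ} (M : (Fin n → ℝ → ℝ) → Fin n → Set ℝ) : Prop :=
  ∀ f, (∀ i, Valid (f i)) → (∀ i, FU (M f i)) ∧ Pairwise (fun i j => Disjoint (M f i) (M f j)) ∧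
    ⋃ i, M f i = Icc 0 1

/-- truth-telling is a dominant strategy -/
def Truthful {n : ℕ} (M : (Fin n → ℝ → ℝ) → Fin n → Set ℝ) : Prop :=
  ∀ f, (∀ i, Valid (f i)) → ∀ i g, Valid g →
    val (f i) (M (Function.update f i g) i) ≤ val (f i) (M f i)

/-- membership in `S` only changes at finitely many points -/
def BP (S : Set ℝ) : Prop :=
  ∃ B : Finset ℝ, ∀ x y, x ≤ y → (∀ b ∈ B, b < x ∨ y < b) → (x ∈ S ↔ y ∈ S)

lemma FU.meas {S : Set ℝ} (h : FU S) : MeasurableSet S := by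
  obtain ⟨F, hF, rfl⟩ := h
  exact F.measurableSet_biUnion fun I hI => (hF I hI).measurableSet

lemma FU.bp {S : Set ℝ} (h : FU S) (hS : S ⊆ Icc 0 1) : BP S := by
  classical
  obtain ⟨F, hF, rfl⟩ := h
  refine ⟨F.image sInf ∪ F.image sSup, fun x y hxy hB => ?_⟩
  simp only [mem_iUnion]
  refine exists_congr fun I => exists_congr fun hI => ?_
  have hI' : I ⊆ Icc 0 1 := fun z hz => hS (mem_biUnion (Finset.mem_coe.2 hI) hz)
  have b1 := hB _ (Finset.mem_union_left _ (Finset.mem_image_of_mem _ hI))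
  have b2 := hB _ (Finset.mem_union_right _ (Finset.mem_image_of_mem _ hI))
  constructor
  · intro hx
    have := le_csSup (bddAbove_Icc.mono hI') hx
    obtain ⟨z, hz, hyz⟩ := exists_lt_of_lt_csSup ⟨x, hx⟩ (show y < sSup I by
      rcases b2 with h | h <;> linarith)
    exact (hF I hI).out hx hz ⟨hxy, hyz.le⟩
  · intro hy
    have := csInf_le (bddBelow_Icc.mono hI') hy
    obtain ⟨z, hz, hzx⟩ := exists_lt_of_csInf_lt ⟨y, hy⟩ (show sInf I < x by
      rcases b1 with h | h <;> linarith)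
    exact (hF I hI).out hz hy ⟨hzx.le, hxy⟩

lemma BP.inter {S T : Set ℝ} (h : BP S) (h' : BP T) : BP (S ∩ T) := by
  classical
  obtain ⟨B, hB⟩ := h
  obtain ⟨C, hC⟩ := h'
  exact ⟨B ∪ C, fun x y hxy hb => and_congr
    (hB x y hxy fun b h => hb b (Finset.mem_union_left _ h))
    (hC x y hxy fun b h => hb b (Finset.mem_union_right _ h))⟩

open Classical in
/-- three-valued densities -/
noncomputable def phi (E A : Set ℝ) (v : V) (x : ℝ) : ℝ :=
  if x ∈ E then v.1 else if x ∈ A then v.2.1 else v.2.2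

lemma phi_pc {E A : Set ℝ} (hE : BP E) (hA : BP A) (v : V) : PC (phi E A v) := by
  classical
  obtain ⟨B, hB⟩ := hE
  obtain ⟨C, hC⟩ := hA
  let τ : ℝ → Finset ℝ × Finset ℝ := fun x => ((B ∪ C).filter (· < x), (B ∪ C).filter (· ≤ x))
  refine ⟨((B ∪ C).powerset ×ˢ (B ∪ C).powerset).image (fun k => {x | x ∈ Icc (0:ℝ) 1 ∧ τ x = k}),
    ?_, ?_, ?_, ?_⟩
  · intro I hI
    obtain ⟨k, -, rfl⟩ := Finset.mem_image.1 hI
    refine ⟨fun x hx y hy z hz => ⟨⟨hx.1.1.trans hz.1, hz.2.trans hy.1.2⟩, ?_⟩⟩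
    have e : τ y = τ x := hy.2.trans hx.2.symm
    rw [← hx.2]
    simp only [τ, Prod.mk.injEq, Finset.ext_iff, Finset.mem_filter] at e ⊢
    exact ⟨fun b => ⟨fun h => (e.1 b).1 ⟨h.1, h.2.trans_le hz.2⟩, fun h => ⟨h.1, h.2.trans_le hz.1⟩⟩,
      fun b => ⟨fun h => (e.2 b).1 ⟨h.1, h.2.trans hz.2⟩, fun h => ⟨h.1, h.2.trans hz.1⟩⟩⟩
  · intro I hI J hJ hne
    obtain ⟨k, -, rfl⟩ := Finset.mem_image.1 hI
    obtain ⟨l, -, rfl⟩ := Finset.mem_image.1 hJ
    refine Set.disjoint_left.2 fun x hx hy => hne ?_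
    rw [show k = l from hx.2.symm.trans hy.2]
  · ext x
    simp only [mem_iUnion, Finset.mem_image]
    constructor
    · rintro ⟨_, ⟨k, -, rfl⟩, hx⟩; exact hx.1
    · intro hx
      exact ⟨_, ⟨τ x, Finset.mem_product.2 ⟨Finset.mem_powerset.2 (Finset.filter_subset _ _),
        Finset.mem_powerset.2 (Finset.filter_subset _ _)⟩, rfl⟩, hx, rfl⟩
  · intro I hI
    obtain ⟨k, -, rfl⟩ := Finset.mem_image.1 hI
    have key : ∀ x y, x < y → τ x = τ y → phi E A v x = phi E A v y := by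
      intro x y hxy e
      simp only [τ, Prod.mk.injEq, Finset.ext_iff, Finset.mem_filter] at e
      have hb : ∀ b ∈ B ∪ C, b < x ∨ y < b := by
        intro b hb
        by_contra hc
        push Not at hc
        have h1 := ((e.2 b).2 ⟨hb, hc.2⟩).2
        have h2 := ((e.1 b).2 ⟨hb, h1.trans_lt hxy⟩).2
        linarith [hc.1]
      simp only [phi, hB x y hxy.le (fun b h => hb b (Finset.mem_union_left _ h)),
        hC x y hxy.le (fun b h => hb b (Finset.mem_union_right _ h))]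
    by_cases hne : ∃ x, x ∈ Icc (0:ℝ) 1 ∧ τ x = k
    · obtain ⟨x, hx⟩ := hne
      refine ⟨phi E A v x, fun y hy => ?_⟩
      rcases lt_trichotomy x y with h | h | h
      · exact (key x y h (hx.2.trans hy.2.symm)).symm
      · rw [h]
      · exact key y x h (hy.2.trans hx.2.symm)
    · exact ⟨0, fun y hy => absurd ⟨y, hy⟩ hne⟩

/-- measures of `X` in the three cells -/
noncomputable def vec (E A X : Set ℝ) : V :=
  (volume.real (X ∩ E), volume.real (X ∩ (A \ E)), volume.real (X \ A))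

lemma val_phi {E A X : Set ℝ} (hE : MeasurableSet E) (hA : MeasurableSet A) (hEA : E ⊆ A)
    (hX : X ⊆ Icc 0 1) (v : V) : val (phi E A v) X = dot v (vec E A X) := by
  have hfin : volume X < ⊤ := (measure_mono hX).trans_lt (by simp)
  have : IsFiniteMeasure (volume.restrict X) := isFiniteMeasure_restrict.2 hfin.ne
  have e : phi E A v = fun x => E.indicator (fun _ => v.1) x + (A \ E).indicator (fun _ => v.2.1) x
      + Aᶜ.indicator (fun _ => v.2.2) x := by
    funext x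
    by_cases h1 : x ∈ E
    · simp [phi, h1, hEA h1]
    · by_cases h2 : x ∈ A <;> simp [phi, h1, h2]
  rw [val, e, integral_add, integral_add, integral_indicator_const _ hE,
    integral_indicator_const _ (hA.diff hE), integral_indicator_const _ hA.compl]
  · simp only [dot, vec, smul_eq_mul, measureReal_restrict_apply hE,
      measureReal_restrict_apply (hA.diff hE), measureReal_restrict_apply hA.compl, inter_comm _ X,
      ← sdiff_eq]
    ring
  · exact (integrable_const _).indicator hE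
  · exact (integrable_const _).indicator (hA.diff hE)
  · exact ((integrable_const _).indicator hE).add ((integrable_const _).indicator (hA.diff hE))
  · exact (integrable_const _).indicator hA.compl

lemma vec_add {E A X Y : Set ℝ} (hE : MeasurableSet E) (hA : MeasurableSet A)
    (hY : MeasurableSet Y) (hd : Disjoint X Y) (hu : X ∪ Y = Icc 0 1) :
    vec E A X + vec E A Y = vec E A (Icc 0 1) := by
  have k : ∀ S : Set ℝ, MeasurableSet S →
      volume.real (X ∩ S) + volume.real (Y ∩ S) = volume.real (Icc 0 1 ∩ S) := by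
    intro S hS
    have f : ∀ Z ⊆ Icc (0:ℝ) 1, volume (Z ∩ S) ≠ ⊤ := fun Z hZ =>
      ((measure_mono (inter_subset_left.trans hZ)).trans_lt (by simp)).ne
    rw [← measureReal_union (hd.mono inter_subset_left inter_subset_left) (hY.inter hS)
      (f _ (hu ▸ subset_union_left)) (f _ (hu ▸ subset_union_right)), ← union_inter_distrib_right, hu]
  simp only [vec, Prod.mk_add_mk, sdiff_eq X, sdiff_eq Y, sdiff_eq (Icc (0:ℝ) 1), k _ hE,
    k _ (hA.diff hE), k _ hA.compl]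

lemma vec_nonneg (E A X : Set ℝ) :
    0 ≤ (vec E A X).1 ∧ 0 ≤ (vec E A X).2.1 ∧ 0 ≤ (vec E A X).2.2 :=
  ⟨measureReal_nonneg, measureReal_nonneg, measureReal_nonneg⟩

lemma frame (M : (Fin 2 → ℝ → ℝ) → Fin 2 → Set ℝ) (hM : IsMech M) (hT : Truthful M)
    (hP : ∀ f, (∀ i, Valid (f i)) → ∀ i, val (f i) (M f i) ≠ 0)
    {E A : Set ℝ} (hE : MeasurableSet E) (hA : MeasurableSet A) (hEA : E ⊆ A)
    (bE : BP E) (bA : BP A) (d e b : ℝ) (htot : vec E A (Icc 0 1) = (d, e, b)) (y : V → V → V)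
    (hy : ∀ f g, y f g = vec E A (M ![phi E A f, phi E A g] 1)) :
    (∀ f g, ok d e b f → ok d e b g → FU (M ![phi E A f, phi E A g] 1) ∧
      M ![phi E A f, phi E A g] 1 ⊆ Icc 0 1) ∧
    (∀ f g, ok d e b f → ok d e b g → (0 ≤ (y f g).1 ∧ (y f g).1 ≤ d) ∧
      (0 ≤ (y f g).2.1 ∧ (y f g).2.1 ≤ e) ∧ (0 ≤ (y f g).2.2 ∧ (y f g).2.2 ≤ b)) ∧
    (∀ f f' g, ok d e b f → ok d e b f' → ok d e b g → dot f (y f g) ≤ dot f (y f' g)) ∧
    (∀ f g g', ok d e b f → ok d e b g → ok d e b g' → dot g (y f g') ≤ dot g (y f g)) ∧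
    (∀ f g, ok d e b f → ok d e b g → dot f (y f g) < dot f (d, e, b)) ∧
    (∀ f g, ok d e b f → ok d e b g → 0 < dot g (y f g)) := by
  have hv : ∀ f, ok d e b f → Valid (phi E A f) := by
    intro f hf
    refine ⟨phi_pc bE bA f, fun x _ => ?_, ?_⟩
    · simp only [phi]; split_ifs
      exacts [hf.1, hf.2.1, hf.2.2.1]
    · have := val_phi hE hA hEA (subset_refl _) f
      rw [val, htot] at this
      rw [this]; exact hf.2.2.2
  have hv2 : ∀ f g, ok d e b f → ok d e b g → ∀ i, Valid (![phi E A f, phi E A g] i) :=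
    fun f g hf hg => Fin.forall_fin_two.2 ⟨hv f hf, hv g hg⟩
  have hsub : ∀ f g, ok d e b f → ok d e b g → ∀ i, M ![phi E A f, phi E A g] i ⊆ Icc 0 1 :=
    fun f g hf hg i => (hM _ (hv2 f g hf hg)).2.2 ▸ subset_iUnion _ i
  have hsum : ∀ f g, ok d e b f → ok d e b g →
      vec E A (M ![phi E A f, phi E A g] 0) + y f g = (d, e, b) := by
    intro f g hf hg
    obtain ⟨h1, h2, h3⟩ := hM _ (hv2 f g hf hg)
    rw [hy, ← htot]
    refine vec_add hE hA (h1 1).meas (h2 (by decide)) ?_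
    rw [← h3]; ext x; simp [Fin.exists_fin_two]
  have hdot : ∀ f g h, ok d e b f → ok d e b g →
      val (phi E A h) (M ![phi E A f, phi E A g] 0) = dot h (d, e, b) - dot h (y f g) := by
    intro f g h hf hg
    rw [val_phi hE hA hEA (hsub f g hf hg 0), ← hsum f g hf hg]
    simp only [dot, Prod.fst_add, Prod.snd_add]; ring
  have hnn : ∀ f X, ok d e b f → 0 ≤ dot f (vec E A X) := fun f X hf =>
    add_nonneg (add_nonneg (mul_nonneg hf.1 (vec_nonneg _ _ _).1)
      (mul_nonneg hf.2.1 (vec_nonneg _ _ _).2.1)) (mul_nonneg hf.2.2.1 (vec_nonneg _ _ _).2.2)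
  refine ⟨fun f g hf hg => ⟨(hM _ (hv2 f g hf hg)).1 1, hsub f g hf hg 1⟩, fun f g hf hg => ?_,
    fun f f' g hf hf' hg => ?_, fun f g g' hf hg hg' => ?_, fun f g hf hg => ?_,
    fun f g hf hg => ?_⟩
  · have h := hsum f g hf hg
    have a := vec_nonneg E A (M ![phi E A f, phi E A g] 0)
    have a' := vec_nonneg E A (M ![phi E A f, phi E A g] 1)
    rw [← hy] at a'
    simp only [Prod.ext_iff, Prod.fst_add, Prod.snd_add] at h
    refine ⟨⟨a'.1, ?_⟩, ⟨a'.2.1, ?_⟩, a'.2.2, ?_⟩ <;> linarith [a.1, a.2.1, a.2.2, h.1, h.2.1, h.2.2]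
  · have h := hT _ (hv2 f g hf hg) 0 _ (hv f' hf')
    have e : Function.update ![phi E A f, phi E A g] 0 (phi E A f') = ![phi E A f', phi E A g] := by
      ext i; fin_cases i <;> simp
    rw [e] at h
    simp only [Matrix.cons_val_zero] at h
    rw [hdot f' g f hf' hg, hdot f g f hf hg] at h
    linarith
  · have h := hT _ (hv2 f g hf hg) 1 _ (hv g' hg')
    have e : Function.update ![phi E A f, phi E A g] 1 (phi E A g') = ![phi E A f, phi E A g'] := by
      ext i; fin_cases i <;> simp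
    rw [e] at h
    simp only [Matrix.cons_val_one, Matrix.cons_val_zero] at h
    rwa [val_phi hE hA hEA (hsub f g' hf hg' 1), val_phi hE hA hEA (hsub f g hf hg 1), ← hy,
      ← hy] at h
  · have h := hP _ (hv2 f g hf hg) 0
    simp only [Matrix.cons_val_zero] at h
    have h' := hnn f (M ![phi E A f, phi E A g] 0) hf
    rw [← val_phi hE hA hEA (hsub f g hf hg 0)] at h'
    have := lt_of_le_of_ne h' h.symm
    rw [hdot f g f hf hg] at this
    linarith
  · have h := hP _ (hv2 f g hf hg) 1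
    simp only [Matrix.cons_val_one, Matrix.cons_val_zero] at h
    rw [val_phi hE hA hEA (hsub f g hf hg 1)] at h
    rw [hy]
    exact lt_of_le_of_ne (hnn g _ hg) h.symm

theorem result (M : (Fin 2 → ℝ → ℝ) → Fin 2 → Set ℝ) (hM : IsMech M) (hT : Truthful M) :
    ∃ f : Fin 2 → ℝ → ℝ, (∀ i, Valid (f i)) ∧ ∃ i, val (f i) (M f i) = 0 := by
  by_contra hc
  push Not at hc
  have b0 : BP ∅ := ⟨∅, by simp⟩
  have u1 : ∀ E A : Set ℝ, phi E A (1, 1, 1) = fun _ => 1 := by
    intro E A; funext x; simp [phi]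
  have vu : Valid fun _ => 1 := ⟨u1 ∅ ∅ ▸ phi_pc b0 b0 _, by simp, by simp⟩
  have vu2 : ∀ i, Valid (![fun _ => 1, fun _ => 1] i) := Fin.forall_fin_two.2 ⟨vu, vu⟩
  obtain ⟨a1, a2, a3⟩ := hM _ vu2
  set A := M ![fun _ => 1, fun _ => 1] 0 with hAdef
  set B := M ![fun _ => 1, fun _ => 1] 1 with hBdef
  have hAs : A ⊆ Icc 0 1 := a3 ▸ subset_iUnion _ 0
  have hAB : A ∪ B = Icc 0 1 := by rw [← a3]; ext x; simp [Fin.exists_fin_two, hAdef, hBdef]
  have hd : Disjoint A B := a2 (show (0 : Fin 2) ≠ 1 by decide)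
  have mA : MeasurableSet A := (a1 0).meas
  have bA : BP A := (a1 0).bp hAs
  have eB : Icc 0 1 \ A = B := by rw [← hAB, union_sdiff_cancel_left (by simpa using hd.le_bot)]
  have pa : 0 < volume.real A := lt_of_le_of_ne measureReal_nonneg (by
    have := hc _ vu2 0; simpa [val, ← hAdef, eq_comm] using this)
  have pb : 0 < volume.real B := lt_of_le_of_ne measureReal_nonneg (by
    have := hc _ vu2 1; simpa [val, ← hBdef, eq_comm] using this)
  set a := volume.real A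
  set b := volume.real B
  obtain ⟨s1, s2, ic1, ic2, -, pos2⟩ := frame M hM hT hc MeasurableSet.empty mA (empty_subset A)
    b0 bA 0 a b (by simp [vec, inter_eq_self_of_subset_right hAs, eB, a, b]) _ (fun _ _ => rfl)
  set y : V → V → V := fun f g => vec ∅ A (M ![phi ∅ A f, phi ∅ A g] 1) with hy
  change ∀ f g, _ → _ → (0 ≤ (y f g).1 ∧ (y f g).1 ≤ 0) ∧ (0 ≤ (y f g).2.1 ∧ (y f g).2.1 ≤ a) ∧
    (0 ≤ (y f g).2.2 ∧ (y f g).2.2 ≤ b) at s2
  change ∀ f f' g, _ → _ → _ → dot f (y f g) ≤ dot f (y f' g) at ic1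
  change ∀ f g g', _ → _ → _ → dot g (y f g') ≤ dot g (y f g) at ic2
  change ∀ f g, _ → _ → 0 < dot g (y f g) at pos2
  have okg : ∀ t : ℝ, 0 ≤ t → ok 0 a b (t, t, 1) := fun t h =>
    ⟨h, h, by norm_num, by simp only [dot]; positivity⟩
  have f0 : ok 0 a b (1, 1, 0) := ⟨by norm_num, by norm_num, le_rfl, by simpa [dot] using pa⟩
  have u := okg 1 zero_le_one
  have gh := okg (1/2) (by norm_num)
  have y0 : y (1, 1, 1) (1, 1, 1) = (0, 0, b) := by
    simp only [hy, u1, vec, ← hBdef, inter_empty, sdiff_empty, hd.symm.inter_eq,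
      hd.symm.sdiff_eq_left, measureReal_empty, b]
  have y1 : y (1, 1, 1) (1/2, 1/2, 1) = (0, 0, b) := by
    have c1 := ic2 _ _ _ u u gh
    have c2 := ic2 _ _ _ u gh u
    have c3 := s2 _ _ u gh
    rw [y0] at c1 c2
    simp only [dot] at c1 c2
    refine Prod.ext ?_ (Prod.ext ?_ ?_) <;> simp only <;>
      linarith [c3.1.1, c3.1.2, c3.2.1.1, c3.2.2.2]
  have y2 : y (1, 1, 0) (1/2, 1/2, 1) = (0, 0, b) := by
    have c1 := ic1 _ _ _ f0 u gh
    have c2 := ic1 _ _ _ u f0 gh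
    have c3 := s2 _ _ f0 gh
    rw [y1] at c1 c2
    simp only [dot] at c1 c2
    refine Prod.ext ?_ (Prod.ext ?_ ?_) <;> simp only <;>
      linarith [c3.1.1, c3.1.2, c3.2.1.1, c3.2.2.2]
  obtain ⟨t, ht, h1, h2⟩ : ∃ t : ℝ, 0 < t ∧ (y (1, 1, 0) (t, t, 1)).2.1 = 0 ∧
      (y (1, 1, 0) (3/2 * t, 3/2 * t, 1)).2.1 ≠ 0 := by
    by_contra hn
    push Not at hn
    have all : ∀ k : ℕ, (y (1, 1, 0) (1/2 * (3/2) ^ k, 1/2 * (3/2) ^ k, 1)).2.1 = 0 := by
      intro k
      induction k with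
      | zero => simp only [pow_zero, mul_one, y2]
      | succ k ih =>
        have := hn _ (by positivity) ih
        rwa [show (3/2 : ℝ) * (1/2 * (3/2) ^ k) = 1/2 * (3/2) ^ (k + 1) by ring] at this
    have p := pos2 _ _ f0 f0
    have c0 := s2 _ _ f0 f0
    simp only [dot] at p
    have hr : 0 < (y (1, 1, 0) (1, 1, 0)).2.1 := by linarith [c0.1.2]
    obtain ⟨k, hk⟩ := pow_unbounded_of_one_lt (2 * b / (y (1, 1, 0) (1, 1, 0)).2.1)
      (show (1:ℝ) < 3/2 by norm_num)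
    have g := okg (1/2 * (3/2) ^ k) (by positivity)
    have c1 := ic2 _ _ _ f0 g f0
    have c2 := s2 _ _ f0 g
    simp only [dot] at c1
    rw [all k, le_antisymm c2.1.2 c2.1.1, le_antisymm c0.1.2 c0.1.1] at c1
    rw [div_lt_iff₀ hr] at hk
    linarith [c2.2.2.2, c0.2.2.1]
  have gt := okg t ht.le
  have g3 := okg (3/2 * t) (by positivity)
  have y3 : y (1, 1, 0) (t, t, 1) = (0, 0, b) := by
    have c1 := ic2 _ _ _ f0 gt gh
    have c3 := s2 _ _ f0 gt
    rw [y2] at c1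
    simp only [dot] at c1
    rw [h1, le_antisymm c3.1.2 c3.1.1] at c1
    refine Prod.ext ?_ (Prod.ext h1 ?_) <;> simp only <;> linarith [c3.1.1, c3.1.2, c3.2.2.2]
  obtain ⟨fY, sY⟩ := s1 _ _ f0 g3
  set Y := M ![phi ∅ A (1, 1, 0), phi ∅ A (3/2 * t, 3/2 * t, 1)] 1 with hY
  have mD : MeasurableSet (Y ∩ A) := fY.meas.inter mA
  have same : ∀ α γ : ℝ, phi (Y ∩ A) A (α, α, γ) = phi ∅ A (α, α, γ) := by
    intro α γ; funext x
    by_cases h : x ∈ A <;> simp [phi, h]
  have conv : ∀ X ⊆ Icc (0:ℝ) 1, vec ∅ A X = (0, 0, b) → vec (Y ∩ A) A X = (0, 0, b) := by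
    intro X hX h
    simp only [vec, Prod.mk.injEq, sdiff_empty] at h ⊢
    have f : volume (X ∩ A) ≠ ⊤ :=
      ((measure_mono (inter_subset_left.trans hX)).trans_lt (by simp)).ne
    exact ⟨le_antisymm (h.2.1 ▸ measureReal_mono (inter_subset_inter_right _ inter_subset_right) f)
      measureReal_nonneg, le_antisymm (h.2.1 ▸ measureReal_mono
        (inter_subset_inter_right _ sdiff_subset) f) measureReal_nonneg, h.2.2⟩
  obtain ⟨-, r2, r3, r4, r5, -⟩ := frame M hM hT hc mD mA inter_subset_right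
    ((fY.bp sY).inter bA) bA (volume.real (Y ∩ A)) (volume.real (Icc 0 1 ∩ (A \ (Y ∩ A)))) b
    (by simp only [vec, eB, b]; rw [inter_eq_self_of_subset_right (inter_subset_left.trans sY)])
    _ (fun _ _ => rfl)
  refine three _ _ b (lt_of_le_of_ne measureReal_nonneg fun h => h2 ?_) measureReal_nonneg pb _
    r2 r3 r4 r5 t ht ?_ ?_ ?_ ?_
  · simp only [hy, vec, sdiff_empty, ← hY]; exact h.symm
  · simp only [same]; exact conv _ (s1 _ _ u gh).2 y1
  · simp only [same]; exact conv _ (s1 _ _ f0 gt).2 y3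
  · simp only [same, vec, ← hY, ← inter_assoc, inter_self]
  · simp only [same, vec, ← hY]
    rw [show Y ∩ (A \ (Y ∩ A)) = ∅ by ext x; simp]; simp

end Pool.Agent.Results.MP_b3d40b_lc.Two
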